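import Pool.Agent.Lib.MP_c7af3c_ag.GEN.Groups

/-!
Module GDUAL: powers of tangent vectors at the origin of a group scheme.
-/

set_option autoImplicit false

namespace Pool.Agent.Gen.H91

open AlgebraicGeometry CategoryTheory CategoryTheory.Limits MonoidalCategory
  CartesianMonoidalCategory MonObj

section

variable (k : Type) [Field k]

/-- `Spec (k ⊕ M)`, `M² = 0`, over `Spec k` -/
noncomputable abbrev dOver (M : Type) [AddCommGroup M] [Module k M] [Module kᵐᵒᵖ M]
    [IsCentralScalar k M] : Over (Spec (CommRingCat.of k)) :=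
  Over.mk (Spec.map (CommRingCat.ofHom (algebraMap k (TrivSqZeroExt k M))))

variable {k}

/-- the morphism given by a linear map -/
noncomputable def dmap {M N : Type} [AddCommGroup M] [Module k M] [Module kᵐᵒᵖ M]
    [IsCentralScalar k M] [AddCommGroup N] [Module k N] [Module kᵐᵒᵖ N]
    [IsCentralScalar k N] (f : M →ₗ[k] N) : dOver k N ⟶ dOver k M :=
  Over.homMk (Spec.map (CommRingCat.ofHom (TrivSqZeroExt.map f).toRingHom)) (by
    change Spec.map _ ≫ Spec.map _ = Spec.map _
    rw [← Spec.map_comp, ← CommRingCat.ofHom_comp]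
    congr 2
    exact (TrivSqZeroExt.map f).comp_algebraMap)

theorem dmap_comp {M N P : Type} [AddCommGroup M] [Module k M] [Module kᵐᵒᵖ M]
    [IsCentralScalar k M] [AddCommGroup N] [Module k N] [Module kᵐᵒᵖ N]
    [IsCentralScalar k N] [AddCommGroup P] [Module k P] [Module kᵐᵒᵖ P]
    [IsCentralScalar k P] (f : M →ₗ[k] N) (g : N →ₗ[k] P) :
    dmap g ≫ dmap f = dmap (g.comp f) := by
  apply Over.OverMorphism.ext
  change Spec.map _ ≫ Spec.map _ = Spec.map _
  rw [← Spec.map_comp, ← CommRingCat.ofHom_comp]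
  congr 2
  rw [TrivSqZeroExt.map_comp_map]
  rfl

theorem dmap_id {M : Type} [AddCommGroup M] [Module k M] [Module kᵐᵒᵖ M]
    [IsCentralScalar k M] : dmap (LinearMap.id : M →ₗ[k] M) = 𝟙 (dOver k M) := by
  apply Over.OverMorphism.ext
  change Spec.map _ = 𝟙 _
  rw [TrivSqZeroExt.map_id]
  exact Spec.map_id _

theorem rho_eq (a : k) : rho k a = dmap (a • LinearMap.id : k →ₗ[k] k) := rfl

theorem subs (M : Type) [AddCommGroup M] [Module k M] [Module kᵐᵒᵖ M]
    [IsCentralScalar k M] : Subsingleton (PrimeSpectrum (TrivSqZeroExt k M)) := by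
  have key : ∀ (p : PrimeSpectrum (TrivSqZeroExt k M)) (x : TrivSqZeroExt k M),
      x ∈ p.asIdeal ↔ x.fst = 0 := by
    intro p x
    constructor
    · intro hx
      by_contra h0
      have : IsUnit x := TrivSqZeroExt.isUnit_iff_isUnit_fst.2 (isUnit_iff_ne_zero.2 h0)
      exact p.isPrime.ne_top (Ideal.eq_top_of_isUnit_mem _ hx this)
    · intro h0
      have h1 : x = TrivSqZeroExt.inr x.snd := by
        ext
        · simpa using h0
        · simp
      have h2 : x * x = 0 := by
        rw [h1]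
        exact TrivSqZeroExt.inr_mul_inr _ _ _
      have h3 : x * x ∈ p.asIdeal := by
        rw [h2]
        exact p.asIdeal.zero_mem
      rcases p.isPrime.mem_or_mem h3 with h | h
      · exact h
      · exact h
  refine ⟨fun p q => PrimeSpectrum.ext (Ideal.ext fun x => ?_)⟩
  rw [key, key]

/-- `Y(k[ε, ε']) → Y(k[ε]) × Y(k[ε'])` is injective -/
theorem inj_sch (Y : Scheme.{0}) (F G : Spec (CommRingCat.of (TrivSqZeroExt k (k × k))) ⟶ Y)
    (e1 : Spec.map (CommRingCat.ofHom (TrivSqZeroExt.map (LinearMap.fst k k k)).toRingHom) ≫ F =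
      Spec.map (CommRingCat.ofHom (TrivSqZeroExt.map (LinearMap.fst k k k)).toRingHom) ≫ G)
    (e2 : Spec.map (CommRingCat.ofHom (TrivSqZeroExt.map (LinearMap.snd k k k)).toRingHom) ≫ F =
      Spec.map (CommRingCat.ofHom (TrivSqZeroExt.map (LinearMap.snd k k k)).toRingHom) ≫ G) :
    F = G := by
  have hsub : Subsingleton (Spec (CommRingCat.of (TrivSqZeroExt k (k × k)))) := subs (k × k)
  -- one point
  let z : Spec (CommRingCat.of (TrivSqZeroExt k k)) :=
    (⟨RingHom.ker (TrivSqZeroExt.fstHom k k k).toRingHom, RingHom.ker_isPrime _⟩ :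
      PrimeSpectrum (TrivSqZeroExt k k))
  let x : Spec (CommRingCat.of (TrivSqZeroExt k (k × k))) :=
    (Spec.map (CommRingCat.ofHom (TrivSqZeroExt.map (LinearMap.fst k k k)).toRingHom)).base z
  have hx : ∀ y, F.base y = G.base y := by
    intro y
    rw [Subsingleton.elim y x]
    exact congrArg (fun φ => φ.base z) e1
  obtain ⟨U, hU, hxU, -⟩ := exists_isAffineOpen_mem_and_subset (U := ⊤) (x := F.base x) trivial
  have hFU : Set.range F.base ⊆ Set.range U.ι.base := by
    rintro _ ⟨y, rfl⟩
    rw [Scheme.Opens.range_ι, Subsingleton.elim y x]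
    exact hxU
  have hGU : Set.range G.base ⊆ Set.range U.ι.base := by
    rintro _ ⟨y, rfl⟩
    rw [Scheme.Opens.range_ι, ← hx, Subsingleton.elim y x]
    exact hxU
  have hFf := IsOpenImmersion.lift_fac U.ι F hFU
  have hGf := IsOpenImmersion.lift_fac U.ι G hGU
  set F' := IsOpenImmersion.lift U.ι F hFU with hF'
  set G' := IsOpenImmersion.lift U.ι G hGU with hG'
  rw [← hFf, ← hGf] at e1 e2
  rw [← hFf, ← hGf]
  congr 1
  have e1' := (cancel_mono U.ι).1 ((Category.assoc _ _ _).trans (e1.trans (Category.assoc _ _ _).symm))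
  have e2' := (cancel_mono U.ι).1 ((Category.assoc _ _ _).trans (e2.trans (Category.assoc _ _ _).symm))
  have : IsAffine (U : Scheme) := hU
  apply ext_of_isAffine
  ext s
  have c1 := congrArg (fun φ => φ.appTop.hom s) e1'
  have c2 := congrArg (fun φ => φ.appTop.hom s) e2'
  simp only [Scheme.Hom.comp_appTop, CommRingCat.hom_comp, RingHom.comp_apply] at c1 c2
  set X := F'.appTop.hom s with hX
  set Z := G'.appTop.hom s with hZ
  have n1 := fun a => congrArg (fun φ => φ.hom a) (Scheme.ΓSpecIso_naturality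
    (CommRingCat.ofHom (TrivSqZeroExt.map (LinearMap.fst k k k)).toRingHom))
  have n2 := fun a => congrArg (fun φ => φ.hom a) (Scheme.ΓSpecIso_naturality
    (CommRingCat.ofHom (TrivSqZeroExt.map (LinearMap.snd k k k)).toRingHom))
  simp only [CommRingCat.hom_comp, RingHom.comp_apply] at n1 n2
  have d1 := (n1 X).symm.trans ((congrArg _ c1).trans (n1 Z))
  have d2 := (n2 X).symm.trans ((congrArg _ c2).trans (n2 Z))
  set x' : TrivSqZeroExt k (k × k) :=
    (Scheme.ΓSpecIso (CommRingCat.of (TrivSqZeroExt k (k × k)))).hom.hom X with hx'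
  set y' : TrivSqZeroExt k (k × k) :=
    (Scheme.ΓSpecIso (CommRingCat.of (TrivSqZeroExt k (k × k)))).hom.hom Z with hy'
  have f1 : TrivSqZeroExt.map (LinearMap.fst k k k) x' =
      TrivSqZeroExt.map (LinearMap.fst k k k) y' := d1
  have f2 : TrivSqZeroExt.map (LinearMap.snd k k k) x' =
      TrivSqZeroExt.map (LinearMap.snd k k k) y' := d2
  have hxy : x' = y' := by
    apply TrivSqZeroExt.ext
    · have := congrArg TrivSqZeroExt.fst f1
      rwa [TrivSqZeroExt.fst_map, TrivSqZeroExt.fst_map] at this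
    · have g1 := congrArg TrivSqZeroExt.snd f1
      have g2 := congrArg TrivSqZeroExt.snd f2
      rw [TrivSqZeroExt.snd_map, TrivSqZeroExt.snd_map] at g1 g2
      exact Prod.ext g1 g2
  have h3 := congrArg
    (Scheme.ΓSpecIso (CommRingCat.of (TrivSqZeroExt k (k × k)))).inv.hom hxy
  rw [hx', hy'] at h3
  have h4 := fun a => congrArg (fun φ => φ.hom a)
    (Scheme.ΓSpecIso (CommRingCat.of (TrivSqZeroExt k (k × k)))).hom_inv_id
  exact (h4 X).symm.trans (h3.trans (h4 Z))

theorem inj_sep (A : Over (Spec (CommRingCat.of k))) (f g : dOver k (k × k) ⟶ A)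
    (h1 : dmap (LinearMap.fst k k k) ≫ f = dmap (LinearMap.fst k k k) ≫ g)
    (h2 : dmap (LinearMap.snd k k k) ≫ f = dmap (LinearMap.snd k k k) ≫ g) : f = g := by
  apply Over.OverMorphism.ext
  exact inj_sch A.left f.left g.left (congrArg CommaMorphism.left h1)
    (congrArg CommaMorphism.left h2)

theorem add_mul (A : Over (Spec (CommRingCat.of k)))
    [CartesianMonoidalCategory (Over (Spec (CommRingCat.of k)))] [GrpObj A] (w : dualOver k ⟶ A)
    (hw : rho k 0 ≫ w = 1) (a b : k) : rho k (a + b) ≫ w = (rho k a ≫ w) * (rho k b ≫ w) := by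
  have h00 : (0 : k) • (LinearMap.id : k →ₗ[k] k) = 0 := by simp
  have key : dmap (LinearMap.prod (LinearMap.id : k →ₗ[k] k) LinearMap.id) ≫ w =
      (dmap (LinearMap.inl k k k) ≫ w) * (dmap (LinearMap.inr k k k) ≫ w) := by
    apply inj_sep
    · rw [MonObj.comp_mul, ← Category.assoc, ← Category.assoc, ← Category.assoc, dmap_comp,
        dmap_comp, dmap_comp]
      rw [LinearMap.fst_prod, LinearMap.fst_comp_inl, LinearMap.fst_comp_inr, ← h00, ← rho_eq, hw,
        _root_.mul_one]
    · rw [MonObj.comp_mul, ← Category.assoc, ← Category.assoc, ← Category.assoc, dmap_comp,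
        dmap_comp, dmap_comp]
      rw [LinearMap.snd_prod, LinearMap.snd_comp_inl, LinearMap.snd_comp_inr, ← h00, ← rho_eq, hw,
        _root_.one_mul]
  have h2 := congrArg (fun φ => dmap (a • LinearMap.fst k k k + b • LinearMap.snd k k k) ≫ φ) key
  rw [MonObj.comp_mul, ← Category.assoc, ← Category.assoc, ← Category.assoc, dmap_comp,
        dmap_comp, dmap_comp] at h2
  have l1 : (a • LinearMap.fst k k k + b • LinearMap.snd k k k).comp
      (LinearMap.prod (LinearMap.id : k →ₗ[k] k) LinearMap.id) = (a + b) • LinearMap.id := by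
    ext
    simp
  have l2 : (a • LinearMap.fst k k k + b • LinearMap.snd k k k).comp (LinearMap.inl k k k) =
      a • LinearMap.id := by
    ext
    simp
  have l3 : (a • LinearMap.fst k k k + b • LinearMap.snd k k k).comp (LinearMap.inr k k k) =
      b • LinearMap.id := by
    ext
    simp
  rw [l1, l2, l3] at h2
  exact h2

theorem gdual : GdualStatement := by
  intro k _ _ A _ w hw n
  induction n with
  | zero =>
    rw [pow_zero, Nat.cast_zero, hw]
  | succ n ih =>
    have h1 : rho k 1 = 𝟙 (dualOver k) := by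
      rw [rho_eq, one_smul]
      exact dmap_id
    rw [pow_succ, ih, Nat.cast_succ, add_mul A w hw, h1, Category.id_comp]

end

end Pool.Agent.Gen.H91
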