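import Pool.Agent.Lib.MP_c7af3c_ag.GEN.Interfaces

/-!
# COEF: bounded heights in all directions: bounded total degree
-/

set_option autoImplicit false

namespace Pool.Agent.Gen.H91

open MvPolynomial

lemma mem_dir_iff {k0 K : Type} [Field k0] [Field K] [Algebra k0 K] {N : ℕ} (t : Fin N → K)
    (i : Fin N) (z : K) :
    z ∈ IntermediateField.adjoin (dirκ (k0 := k0) t i) {t i} ↔
      z ∈ IntermediateField.adjoin k0 (Set.range t) := by
  have h1 := IntermediateField.adjoin_adjoin_left k0 (t '' {j | j ≠ i}) {t i}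
  have h2 : t '' {j | j ≠ i} ∪ {t i} = Set.range t := by
    ext z
    simp only [Set.mem_union, Set.mem_image, Set.mem_singleton_iff, Set.mem_range]
    constructor
    · rintro (⟨j, _, rfl⟩ | rfl)
      · exact ⟨j, rfl⟩
      · exact ⟨i, rfl⟩
    · rintro ⟨j, rfl⟩
      by_cases h : j = i
      · right; rw [h]
      · left; exact ⟨j, h, rfl⟩
  rw [h2] at h1
  rw [← h1]
  rfl

lemma totalDegree_le_of_degreeOf {k0 : Type} [Field k0] {N C : ℕ} (P : MvPolynomial (Fin N) k0)
    (h : ∀ i, P.degreeOf i ≤ C) : P.totalDegree ≤ N * C := by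
  rw [totalDegree]
  refine Finset.sup_le fun m hm => ?_
  rw [Finsupp.sum_fintype _ _ (fun _ => rfl)]
  calc ∑ i, m i ≤ ∑ _i : Fin N, C :=
        Finset.sum_le_sum fun i _ => (le_degreeOf_of_mem_support i hm).trans (h i)
    _ = N * C := by simp

theorem coef (hCoord : CoordStatement) (hDegi : DegiStatement) : CoefStatement := by
  classical
  intro k0 K _ _ _ _ N T hdir C
  have hfin := T.fin
  set F0 := IntermediateField.adjoin k0 (Set.range T.t) with hF0
  set r := Module.finrank F0 K with hr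
  let b : Module.Basis (Fin r) F0 K := Module.finBasis F0 K
  set θ : Fin r → K := fun s => b s with hθ
  have hli : ∀ i, LinearIndependent (IntermediateField.adjoin (dirκ (k0 := k0) T.t i) {T.t i}) θ := by
    intro i
    rw [Fintype.linearIndependent_iff]
    intro g hg s
    have h1 := Fintype.linearIndependent_iff.mp b.linearIndependent
      (fun s => (⟨(g s : K), (mem_dir_iff T.t i _).mp (g s).2⟩ : F0)) hg s
    have h2 : ((g s : K)) = 0 := congrArg Subtype.val h1
    exact Subtype.ext h2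
  have hsp : ∀ i, ⊤ ≤ Submodule.span (IntermediateField.adjoin (dirκ (k0 := k0) T.t i) {T.t i})
      (Set.range θ) := by
    intro i z _
    rw [Submodule.mem_span_range_iff_exists_fun]
    refine ⟨fun s => ⟨(b.repr z s : K), (mem_dir_iff T.t i _).mpr (b.repr z s).2⟩, ?_⟩
    have := b.sum_repr z
    exact this
  choose C' hC' using fun i => hCoord (dirκ (k0 := k0) T.t i) K (T.t i) (hdir i) r θ (hli i)
    (hsp i) (C i)
  set M : ℕ := Finset.univ.sup C' with hM
  refine ⟨r, θ, N * M, fun n x j0 hj0 hht j => ?_⟩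
  have hcoord : ∀ s, ∃ P Q : MvPolynomial (Fin N) k0, aeval T.t Q ≠ 0 ∧
      (∀ i, P.degreeOf i ≤ M ∧ Q.degreeOf i ≤ M) ∧
      ((b.repr (x j) s : F0) : K) * aeval T.t Q = aeval T.t P := by
    intro s
    apply hDegi k0 K N T.t T.indep M _ (b.repr (x j) s).2
    intro i
    obtain ⟨p, q, hq, hp', hq', he⟩ := hC' i n x j0 hj0 (hht i) j (fun s => (b.repr (x j) s : K))
      (fun s => (mem_dir_iff T.t i _).mpr (b.repr (x j) s).2) (b.sum_repr (x j)).symm s
    have hle : C' i ≤ M := Finset.le_sup (Finset.mem_univ i)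
    exact ⟨p, q, hq, hp'.trans hle, hq'.trans hle, he⟩
  choose P Q hQ0 hdeg he using hcoord
  refine ⟨P, Q, fun s => ⟨totalDegree_le_of_degreeOf _ fun i => (hdeg s i).1,
    totalDegree_le_of_degreeOf _ fun i => (hdeg s i).2, hQ0 s⟩, ?_⟩
  have h1 : x j = ∑ s, ((b.repr (x j) s : F0) : K) * θ s := (b.sum_repr (x j)).symm
  rw [h1]
  refine Finset.sum_congr rfl fun s _ => ?_
  rw [← he s, mul_div_cancel_right₀ _ (hQ0 s)]

end Pool.Agent.Gen.H91
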