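import Pool.Agent.Lib.MP_c7af3c_ag.GEN.Interfaces

/-!
# DEGI: bounded degree in each variable
-/

set_option autoImplicit false

namespace Pool.Agent.Gen.H91

open MvPolynomial

/-- an element of `κ_i` is a quotient of polynomials without `T_i` -/
lemma dir_repr {k0 K : Type} [Field k0] [Field K] [Algebra k0 K] {N : ℕ} {t : Fin N → K}
    {i : Fin N} {c : K} (hc : c ∈ dirκ (k0 := k0) t i) :
    ∃ a b : MvPolynomial (Fin N) k0, a.degreeOf i = 0 ∧ b.degreeOf i = 0 ∧ aeval t b ≠ 0 ∧
      c * aeval t b = aeval t a := by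
  have hset : t '' {j | j ≠ i} = Set.range (fun j : {j : Fin N // j ≠ i} => t j.1) := by
    ext z
    simp only [Set.mem_image, Set.mem_range, Subtype.exists]
    constructor
    · rintro ⟨j, hj, rfl⟩; exact ⟨j, hj, rfl⟩
    · rintro ⟨j, hj, rfl⟩; exact ⟨j, hj, rfl⟩
  have hc' : c ∈ IntermediateField.adjoin k0
      (Set.range (fun j : {j : Fin N // j ≠ i} => t j.1)) := by
    rw [← hset]; exact hc
  rw [IntermediateField.mem_adjoin_range_iff] at hc'
  obtain ⟨r, s, hrs⟩ := hc'
  have hdeg : ∀ q : MvPolynomial {j : Fin N // j ≠ i} k0,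
      (rename (Subtype.val : {j : Fin N // j ≠ i} → Fin N) q).degreeOf i = 0 := by
    intro q
    classical
    rw [degreeOf_def, Multiset.count_eq_zero]
    intro h
    have := degrees_rename (Subtype.val : {j : Fin N // j ≠ i} → Fin N) q h
    rw [Multiset.mem_map] at this
    obtain ⟨j, _, hj⟩ := this
    exact j.2 hj
  have hae : ∀ q : MvPolynomial {j : Fin N // j ≠ i} k0,
      aeval t (rename (Subtype.val : {j : Fin N // j ≠ i} → Fin N) q)
        = aeval (fun j : {j : Fin N // j ≠ i} => t j.1) q := by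
    intro q
    rw [aeval_rename]; rfl
  by_cases hs : aeval (fun j : {j : Fin N // j ≠ i} => t j.1) s = 0
  · refine ⟨0, 1, by simp, by simp, by simp, ?_⟩
    rw [hrs, hs]; simp
  · refine ⟨rename Subtype.val r, rename Subtype.val s, hdeg r, hdeg s, by rwa [hae], ?_⟩
    rw [hae, hae, hrs, div_mul_cancel₀ _ hs]

/-- clearing the denominators of a polynomial over `κ_i` -/
lemma clear {k0 K : Type} [Field k0] [Field K] [Algebra k0 K] {N : ℕ} {t : Fin N → K}
    {i : Fin N} {C : ℕ} (p : Polynomial (dirκ (k0 := k0) t i)) (hp : p.natDegree ≤ C) :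
    ∃ D p' : MvPolynomial (Fin N) k0, D.degreeOf i = 0 ∧ aeval t D ≠ 0 ∧ p'.degreeOf i ≤ C ∧
      aeval t D * Polynomial.aeval (t i) p = aeval t p' := by
  classical
  choose a b ha hb hb0 hab using fun n : ℕ => dir_repr (k0 := k0) (t := t) (i := i)
    (p.coeff n).2
  refine ⟨∏ n ∈ Finset.range (C + 1), b n, ∑ n ∈ Finset.range (C + 1),
    a n * (∏ m ∈ (Finset.range (C + 1)).erase n, b m) * X i ^ n, ?_, ?_, ?_, ?_⟩
  · have := degreeOf_prod_le i (Finset.range (C + 1)) b
    rw [Finset.sum_eq_zero (fun j _ => hb j)] at this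
    omega
  · rw [map_prod]
    exact Finset.prod_ne_zero_iff.mpr fun n _ => hb0 n
  · refine (degreeOf_sum_le i _ _).trans (Finset.sup_le fun n hn => ?_)
    refine (degreeOf_mul_le i _ _).trans ?_
    have h1 := degreeOf_mul_le i (a n) (∏ m ∈ (Finset.range (C + 1)).erase n, b m)
    have h2 := degreeOf_prod_le i ((Finset.range (C + 1)).erase n) b
    rw [Finset.sum_eq_zero (fun j _ => hb j)] at h2
    have h3 : (X i ^ n : MvPolynomial (Fin N) k0).degreeOf i = n := degreeOf_X_self_pow i n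
    have h4 := ha n
    rw [Finset.mem_range] at hn
    omega
  · rw [Polynomial.aeval_eq_sum_range' (Nat.lt_succ_of_le hp), map_sum, Finset.mul_sum]
    refine Finset.sum_congr rfl fun n hn => ?_
    rw [map_mul, map_mul, map_pow, aeval_X, ← hab n, map_prod, map_prod,
      ← Finset.mul_prod_erase _ _ hn]
    have : (p.coeff n) • (t i) ^ n = ((p.coeff n : dirκ (k0 := k0) t i) : K) * t i ^ n := rfl
    rw [this]
    ring

theorem degi : DegiStatement := by
  classical
  intro k0 K _ _ _ N t hind C y hy hdir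
  rw [IntermediateField.mem_adjoin_range_iff] at hy
  obtain ⟨r, s, hrs⟩ := hy
  have hinj : Function.Injective (aeval t : MvPolynomial (Fin N) k0 →ₐ[k0] K) := hind
  by_cases hs : aeval t s = 0
  · refine ⟨0, 1, by simp, by simp, ?_⟩
    rw [hrs, hs]; simp
  have hs0 : s ≠ 0 := fun h => hs (by rw [h, map_zero])
  obtain ⟨Q, P, g, hrel, hgQ, hgP⟩ := UniqueFactorizationMonoid.exists_reduced_factors s hs0 r
  have hQ0 : Q ≠ 0 := by rintro rfl; rw [mul_zero] at hgQ; exact hs0 hgQ.symm
  have hg0 : g ≠ 0 := by rintro rfl; rw [zero_mul] at hgQ; exact hs0 hgQ.symm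
  have hne : ∀ q : MvPolynomial (Fin N) k0, q ≠ 0 → aeval t q ≠ 0 := fun q hq h =>
    hq (hinj (by rw [h, map_zero]))
  have hyQ : y * aeval t Q = aeval t P := by
    rw [hrs, ← hgQ, ← hgP, map_mul, map_mul]
    have := hne g hg0
    have := hne Q hQ0
    field_simp
  refine ⟨P, Q, hne Q hQ0, fun i => ?_, hyQ⟩
  obtain ⟨p, q, hq0, hpC, hqC, hpq⟩ := hdir i
  obtain ⟨D1, p', hD1, hD10, hp', hp'e⟩ := clear (k0 := k0) (t := t) (i := i) p hpC
  obtain ⟨D2, q', hD2, hD20, hq', hq'e⟩ := clear (k0 := k0) (t := t) (i := i) q hqC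
  -- the identity `P * (D1 * q') = Q * (D2 * p')`
  have hid : P * (D1 * q') = Q * (D2 * p') := by
    apply hinj
    rw [map_mul, map_mul, map_mul, map_mul, ← hp'e, ← hq'e, ← hyQ, ← hpq]
    ring
  by_cases hq0' : Polynomial.aeval (t i) q = 0
  · -- impossible: `t i` is transcendental over `κ_i`
    exfalso
    have htr : Transcendental (dirκ (k0 := k0) t i) (t i) := by
      have h1 := hind.transcendental_adjoin (s := {j | j ≠ i}) (i := i) (by simp)
      exact IntermediateField.transcendental_adjoin_iff.mpr h1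
    exact (transcendental_iff.mp htr) q hq0' |> hq0
  have hq'0 : q' ≠ 0 := by
    rintro rfl
    rw [map_zero] at hq'e
    exact (mul_ne_zero hD20 hq0') hq'e
  have hD1' : D1 ≠ 0 := fun h => hD10 (by rw [h, map_zero])
  have hD2' : D2 ≠ 0 := fun h => hD20 (by rw [h, map_zero])
  have hL0 : D1 * q' ≠ 0 := mul_ne_zero hD1' hq'0
  constructor
  · by_cases hP0 : P = 0
    · rw [hP0]; simp
    have hdvd : P ∣ D2 * p' := by
      have h1 : P ∣ Q * (D2 * p') := ⟨D1 * q', hid.symm⟩
      exact hrel.symm.dvd_of_dvd_mul_left h1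
    have hR0 : D2 * p' ≠ 0 := by
      intro h
      rw [h, mul_zero] at hid
      exact (mul_ne_zero hP0 hL0) hid
    obtain ⟨e, he⟩ := hdvd
    have he0 : e ≠ 0 := by rintro rfl; rw [mul_zero] at he; exact hR0 he
    have h1 : degreeOf i (D2 * p') = degreeOf i P + degreeOf i e := by
      rw [he]; exact degreeOf_mul_eq hP0 he0
    have h2 := degreeOf_mul_le i D2 p'
    omega
  · have hdvd : Q ∣ D1 * q' := by
      have h1 : Q ∣ P * (D1 * q') := ⟨D2 * p', hid⟩
      exact hrel.dvd_of_dvd_mul_left h1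
    obtain ⟨e, he⟩ := hdvd
    have he0 : e ≠ 0 := by rintro rfl; rw [mul_zero] at he; exact hL0 he
    have h1 : degreeOf i (D1 * q') = degreeOf i Q + degreeOf i e := by
      rw [he]; exact degreeOf_mul_eq hQ0 he0
    have h2 := degreeOf_mul_le i D1 q'
    omega

end Pool.Agent.Gen.H91
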